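import Pool.Agent.helper64.NQ.Spec

/-!
# Project nq, row ATR
-/

set_option autoImplicit false

namespace Pool.Agent.NQ

open Pool.Agent.helper58.DC Pool.Agent.DI Pool.Agent.DR

section

variable {Q : Type} [Group Q] {ω : Q → Q → ℂˣ}

/-- the homomorphism `y ↦ ω y z` -/
def ATR_L (hω : IsAlt ⊤ ω) (z : Q) : Q →* ℂˣ :=
  MonoidHom.mk' (fun y => ω y z) fun x y =>
    hω.mul_left x (Subgroup.mem_top _) y (Subgroup.mem_top _) z (Subgroup.mem_top _)

/-- the homomorphism `z ↦ ω y z` -/
def ATR_R (hω : IsAlt ⊤ ω) (y : Q) : Q →* ℂˣ :=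
  MonoidHom.mk' (fun z => ω y z) fun x z =>
    hω.mul_right y (Subgroup.mem_top _) x (Subgroup.mem_top _) z (Subgroup.mem_top _)

theorem ATR_powL (hω : IsAlt ⊤ ω) (y z : Q) (k : ℕ) : ω (y ^ k) z = ω y z ^ k :=
  map_pow (ATR_L hω z) y k

theorem ATR_powR (hω : IsAlt ⊤ ω) (y z : Q) (k : ℕ) : ω y (z ^ k) = ω y z ^ k :=
  map_pow (ATR_R hω y) z k

theorem ATR_zpowL (hω : IsAlt ⊤ ω) (y z : Q) (k : ℤ) : ω (y ^ k) z = ω y z ^ k :=
  map_zpow (ATR_L hω z) y k

theorem ATR_oneL (hω : IsAlt ⊤ ω) (z : Q) : ω 1 z = 1 := map_one (ATR_L hω z)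

theorem ATR_oneR (hω : IsAlt ⊤ ω) (z : Q) : ω z 1 = 1 := map_one (ATR_R hω z)

theorem ATR_mulL (hω : IsAlt ⊤ ω) (x y z : Q) : ω (x * y) z = ω x z * ω y z :=
  map_mul (ATR_L hω z) x y

theorem ATR_mulR (hω : IsAlt ⊤ ω) (x y z : Q) : ω x (y * z) = ω x y * ω x z :=
  map_mul (ATR_R hω x) y z

theorem ATR_self (hω : IsAlt ⊤ ω) (x : Q) : ω x x = 1 := hω.self x (Subgroup.mem_top _)

theorem ATR_anti (hω : IsAlt ⊤ ω) (y z : Q) (h : ω y z = 1) : ω z y = 1 := by
  have h1 := ATR_self hω (y * z)
  rw [ATR_mulL hω, ATR_mulR hω, ATR_mulR hω, ATR_self hω, ATR_self hω, h, one_mul, one_mul, mul_one] at h1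
  exact h1

end

theorem ATR (hTRF : TRF_stmt) : ATR_stmt := by
  intro Q _ _ hc n hn hQ ω hω
  have hn0 : n ≠ 0 := hn.ne_zero
  have hexp : ∀ a : Q, a ^ n = 1 := hQ.2.2
  -- `n = r * m`
  have hfac : ∀ r ∈ n.primeFactors, r.Prime ∧ ∃ m : ℕ, n = r * m ∧ ¬ r ∣ m := by
    intro r hr
    have hrp : r.Prime := Nat.prime_of_mem_primeFactors hr
    obtain ⟨m, hm⟩ := Nat.dvd_of_mem_primeFactors hr
    refine ⟨hrp, m, hm, ?_⟩
    rintro ⟨l, rfl⟩
    have h1 : r * r ∣ n := ⟨l, by rw [hm]; ring⟩
    have h2 := hn r h1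
    exact hrp.one_lt.ne' (Nat.isUnit_iff.1 h2)
  have htor : ∀ (r m : ℕ) (y : Q), n = r * m → y ^ m ∈ tor Q hc r := by
    intro r m y hm
    show (y ^ m) ^ r = 1
    rw [← pow_mul, mul_comm, ← hm, hexp]
  constructor
  · constructor
    · intro h r _ y _ z _
      exact h y z
    · intro h y z
      by_contra hne
      have hu : ω y z ^ n = 1 := by rw [← ATR_powL hω, hexp, ATR_oneL hω]
      have ho : orderOf (ω y z) ∣ n := orderOf_dvd_of_pow_eq_one hu
      have ho1 : orderOf (ω y z) ≠ 1 := fun h1 => hne (orderOf_eq_one_iff.1 h1)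
      obtain ⟨r, hrp, hro⟩ := Nat.exists_prime_and_dvd ho1
      have hr : r ∈ n.primeFactors := Nat.mem_primeFactors.2 ⟨hrp, hro.trans ho, hn0⟩
      obtain ⟨-, m, hm, hrm⟩ := hfac r hr
      have h1 := h r hr (y ^ m) (htor r m y hm) (z ^ m) (htor r m z hm)
      rw [ATR_powL hω, ATR_powR hω, ← pow_mul] at h1
      have h2 := hro.trans (orderOf_dvd_of_pow_eq_one h1)
      rcases hrp.dvd_mul.1 h2 with h3 | h3 <;> exact hrm h3
  · constructor
    · intro h r hr htriv
      obtain ⟨hrp, m, hm, hrm⟩ := hfac r hr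
      have hcard := (hTRF Q hc n hn hQ).2.1 r (Nat.dvd_of_mem_primeFactors hr)
      have h1 : 1 < Nat.card (tor Q hc r) := by
        rw [hcard]
        exact Nat.one_lt_pow two_ne_zero hrp.one_lt
      have : Nontrivial (tor Q hc r) := Finite.one_lt_card_iff_nontrivial.1 h1
      obtain ⟨⟨z, hz⟩, hz1⟩ := exists_ne (1 : tor Q hc r)
      apply hz1
      apply Subtype.ext
      apply h z
      intro y
      have e1 : ω y z ^ r = 1 := by
        rw [← ATR_powR hω, show z ^ r = 1 from hz, ATR_oneR hω]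
      have e2 : ω y z ^ m = 1 := by
        rw [← ATR_powL hω]
        exact htriv _ (htor r m y hm) z hz
      have e3 : orderOf (ω y z) ∣ 1 := by
        have hco : Nat.Coprime r m := (hrp.coprime_iff_not_dvd).2 hrm
        rw [← hco.gcd_eq_one]
        exact Nat.dvd_gcd (orderOf_dvd_of_pow_eq_one e1) (orderOf_dvd_of_pow_eq_one e2)
      exact orderOf_eq_one_iff.1 (Nat.dvd_one.1 e3)
    · intro h z hz
      by_contra hne
      have ho : orderOf z ∣ n := orderOf_dvd_of_pow_eq_one (hexp z)
      have ho1 : orderOf z ≠ 1 := fun h1 => hne (orderOf_eq_one_iff.1 h1)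
      obtain ⟨r, hrp, hro⟩ := Nat.exists_prime_and_dvd ho1
      have hr : r ∈ n.primeFactors := Nat.mem_primeFactors.2 ⟨hrp, hro.trans ho, hn0⟩
      have hzpos : 0 < orderOf z := orderOf_pos z
      obtain ⟨l, hl⟩ := hro
      have hl0 : 0 < l := by
        rcases Nat.eq_zero_or_pos l with h0 | h0
        · rw [h0, mul_zero] at hl
          omega
        · exact h0
      -- the element of order `r`
      have hord : orderOf (z ^ l) = r := by
        rw [orderOf_pow' z hl0.ne', hl]
        have h1 : Nat.gcd (r * l) l = l := Nat.gcd_eq_right (Dvd.intro_left r rfl)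
        rw [h1, Nat.mul_div_cancel _ hl0]
      set w := z ^ l with hw
      have hwL : ∀ y, ω y w = 1 := by
        intro y
        rw [hw, ATR_powR hω, hz, one_pow]
      have hwR : ∀ y, ω w y = 1 := fun y => ATR_anti hω y w (hwL y)
      have hwt : w ∈ tor Q hc r := by
        show w ^ r = 1
        rw [← hord]
        exact pow_orderOf_eq_one w
      apply h r hr
      intro y hy x hx
      have hcard := (hTRF Q hc n hn hQ).2.1 r (Nat.dvd_of_mem_primeFactors hr)
      by_cases hxw : x ∈ Subgroup.zpowers w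
      · obtain ⟨k, rfl⟩ := Subgroup.mem_zpowers_iff.1 hxw
        apply ATR_anti hω
        rw [ATR_zpowL hω, hwR, one_zpow]
      · -- `tor r` is generated by `w` and `x`
        have hle : Subgroup.closure {w, x} ≤ tor Q hc r := by
          rw [Subgroup.closure_le]
          rintro a (rfl | rfl)
          · exact hwt
          · exact hx
        have hlt : Subgroup.zpowers w < Subgroup.closure {w, x} := by
          refine lt_of_le_of_ne ?_ ?_
          · rw [Subgroup.zpowers_le]
            exact Subgroup.subset_closure (by simp)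
          · intro heq
            apply hxw
            rw [heq]
            exact Subgroup.subset_closure (by simp)
        have hcw : Nat.card (Subgroup.zpowers w) = r := by rw [Nat.card_zpowers, hord]
        have hd1 : Nat.card (Subgroup.closure {w, x}) ∣ r ^ 2 := by
          rw [← hcard]
          exact Subgroup.card_dvd_of_le hle
        have hlt2 : r < Nat.card (Subgroup.closure {w, x}) := by
          rw [← hcw]
          by_contra hge
          exact hlt.ne (Subgroup.eq_of_le_of_card_ge hlt.le (not_lt.1 hge))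
        obtain ⟨i, hi, hie⟩ := (Nat.dvd_prime_pow hrp).1 hd1
        have hi2 : i = 2 := by
          interval_cases i
          · rw [pow_zero] at hie
            have := hrp.one_lt
            omega
          · rw [pow_one] at hie
            omega
          · rfl
        have heq : Subgroup.closure {w, x} = tor Q hc r := by
          apply Subgroup.eq_of_le_of_card_ge hle
          rw [hcard, hie, hi2]
        rw [← heq] at hy
        let inst : CommGroup Q := { (inferInstance : Group Q) with mul_comm := hc }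
        obtain ⟨i, j, hij⟩ := (Subgroup.mem_closure_pair (C := Q)).1 hy
        rw [← hij]
        have f1 : ω (w ^ i * x ^ j) x = ω (w ^ i) x * ω (x ^ j) x := ATR_mulL hω _ _ _
        have f2 : ω (w ^ i) x = 1 := by rw [ATR_zpowL hω, hwR, one_zpow]
        have f3 : ω (x ^ j) x = 1 := by rw [ATR_zpowL hω, ATR_self hω, one_zpow]
        rw [f1, f2, f3, one_mul]

end Pool.Agent.NQ
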